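import Pool.Agent.helper14.Kus3.Defs

/-!
# F1a: the linear area formula
-/

open Set Metric MeasureTheory MeasureTheory.Measure Module
open scoped Topology

namespace Kusner

namespace F1a_aux

/-- the plane -/
abbrev E2 : Type := EuclideanSpace ℝ (Fin 2)

/-- the standard measurable equivalence -/
noncomputable def me : (ℝ × ℝ) ≃ᵐ E2 :=
  MeasurableEquiv.finTwoArrow.symm.trans (MeasurableEquiv.toLp 2 (Fin 2 → ℝ))

theorem me_apply (x : ℝ × ℝ) : me x = !₂[x.1, x.2] := by
  rfl

theorem me_preserving : MeasurePreserving me volume volume :=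
  (volume_preserving_finTwoArrow ℝ).symm.trans (PiLp.volume_preserving_toLp (Fin 2))

theorem volume_image (s : Set (ℝ × ℝ)) : volume (me '' s) = volume s := by
  rw [← me_preserving.measure_preimage_equiv, Set.preimage_image_eq _ me.injective]

/-- the standard linear equivalence -/
noncomputable def le : (ℝ × ℝ) ≃ₗ[ℝ] E2 :=
  (LinearEquiv.finTwoArrow ℝ ℝ).symm.trans (WithLp.linearEquiv 2 ℝ (Fin 2 → ℝ)).symm

theorem le_apply (x : ℝ × ℝ) : le x = !₂[x.1, x.2] := by
  rfl

theorem image_eq (s : Set (ℝ × ℝ)) : le '' s = me '' s := by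
  apply Set.image_congr
  intro x _
  rw [le_apply, me_apply]

theorem exists_smul : ∃ k : NNReal, k ≠ 0 ∧ (μH[2] : Measure E2) = k • volume := by
  have h := isAddLeftInvariant_eq_smul (μH[((2 : ℕ) : ℝ)] : Measure E2) volume
  generalize addHaarScalarFactor (μH[((2 : ℕ) : ℝ)] : Measure E2) volume = k at h
  have hne : (μH[((2 : ℕ) : ℝ)] : Measure E2) ≠ 0 := by
    intro h0
    have h1 := (isOpen_univ : IsOpen (univ : Set E2)).measure_pos
      (μH[((2 : ℕ) : ℝ)] : Measure E2) univ_nonempty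
    rw [h0] at h1
    simp at h1
  refine ⟨k, ?_, ?_⟩
  · rintro rfl
    apply hne
    rw [h]
    ext s _
    simp
  · have e : ((2 : ℕ) : ℝ) = 2 := by norm_num
    rw [e] at h
    exact h

theorem volume_square : volume {x : E2 | ∀ i, x i ∈ Set.Icc (0 : ℝ) 1} = 1 := by
  have h1 : {x : E2 | ∀ i, x i ∈ Set.Icc (0 : ℝ) 1} = me '' (Icc (0 : ℝ) 1 ×ˢ Icc (0 : ℝ) 1) := by
    ext x
    simp only [mem_ofPred_eq, mem_image, Fin.forall_fin_two]
    constructor
    · rintro ⟨h0, h1⟩
      refine ⟨(x 0, x 1), ⟨h0, h1⟩, ?_⟩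
      rw [me_apply]
      ext i
      fin_cases i <;> rfl
    · rintro ⟨y, hy, rfl⟩
      rw [me_apply]
      exact ⟨hy.1, hy.2⟩
  rw [h1, volume_image, Measure.volume_eq_prod, Measure.prod_prod, Real.volume_Icc]
  simp

theorem haus_eq : 0 < cH ∧ ∀ s : Set E2, μH[2] s = ENNReal.ofReal cH * volume s := by
  obtain ⟨k, hk, h⟩ := exists_smul
  have h1 : cH = k := by
    unfold cH
    rw [h, Measure.smul_apply, volume_square]
    simp
  rw [h1]
  refine ⟨by exact_mod_cast pos_iff_ne_zero.mpr hk, ?_⟩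
  intro s
  rw [h, ENNReal.ofReal_coe_nnreal]
  rfl

end F1a_aux

open F1a_aux

theorem P.cH_pos : 0 < cH := haus_eq.1

/-- the linear area formula (for every linear map, injective or not) -/
theorem P.area_linear {E : Type*} [NormedAddCommGroup E] [InnerProductSpace ℝ E]
    [MeasurableSpace E] [BorelSpace E] (L : ℝ × ℝ →ₗ[ℝ] E) (s : Set (ℝ × ℝ)) :
    μH[2] (L '' s) = ENNReal.ofReal (cH * jac (L (1, 0)) (L (0, 1))) * volume s := by
  set f : E2 →ₗ[ℝ] E := L ∘ₗ (le.symm : E2 →ₗ[ℝ] ℝ × ℝ) with hf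
  have h1 : L '' s = f '' (le '' s) := by
    rw [Set.image_image]
    apply Set.image_congr
    intro x _
    simp [hf]
  have h2 := f.hausdorffMeasure_image (le '' s)
  have h3 : ((finrank ℝ E2 : ℕ) : ℝ) = 2 := by simp
  rw [h3] at h2
  have h4 : f.normDet = jac (L (1, 0)) (L (0, 1)) := by
    have h5 := f.normDet_sq_eq_det_gram (EuclideanSpace.basisFun (Fin 2) ℝ)
    have e0 : f (EuclideanSpace.basisFun (Fin 2) ℝ 0) = L (1, 0) := by
      simp only [hf, LinearMap.comp_apply]
      congr 1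
      show le.symm _ = _
      rw [LinearEquiv.symm_apply_eq, le_apply]
      ext i
      fin_cases i <;> simp
    have e1 : f (EuclideanSpace.basisFun (Fin 2) ℝ 1) = L (0, 1) := by
      simp only [hf, LinearMap.comp_apply]
      congr 1
      show le.symm _ = _
      rw [LinearEquiv.symm_apply_eq, le_apply]
      ext i
      fin_cases i <;> simp
    rw [Matrix.det_fin_two] at h5
    simp only [Matrix.gram_apply, e0, e1, real_inner_self_eq_norm_sq] at h5
    unfold jac
    rw [← Real.sqrt_sq f.normDet_nonneg]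
    congr 1
    rw [real_inner_comm (L (1, 0)) (L (0, 1)), ← pow_two] at h5
    exact h5
  rw [h1, h2, h4, F1a_aux.image_eq, haus_eq.2, volume_image, ← mul_assoc,
    ← ENNReal.ofReal_mul (by unfold jac; positivity), mul_comm cH]

end Kusner
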