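import Pool.Agent.helper14.Kus3.Defs

/-!
# Kusner's question, numerics: Lipschitz bound of `Phi`
-/

namespace Kusner.Num.P

theorem Phi_lip {e m m' : ℝ} (he : 0 ≤ e) (he' : e ≤ 3 / 5) (hm : |m| ≤ 5 / 2)
    (hm' : |m'| ≤ 5 / 2) : |Phi e m - Phi e m'| ≤ 10000 * |m - m'| := by
  have p0 : ∀ k : ℕ, 0 ≤ e ^ k := fun k => pow_nonneg he k
  have p1 : ∀ k : ℕ, e ^ k ≤ (3 / 5 : ℝ) ^ k := fun k => pow_le_pow_left₀ he he' k
  set A : ℝ := (624/35) + (2392/35)*e^2 - (2280/7)*e^4 + (36048/35)*e^6 - (63744/35)*e^8 +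
    (37368/35)*e^10 - (504/5)*e^12 with hA
  set B : ℝ := (24/7) - (1188/35)*e^2 + (192/7)*e^4 - (21768/35)*e^6 + (17928/35)*e^8 -
    (252/5)*e^10 with hB
  have a2 := p0 2
  have a4 := p0 4
  have a6 := p0 6
  have a8 := p0 8
  have a10 := p0 10
  have a12 := p0 12
  have b2 := p1 2
  have b4 := p1 4
  have b6 := p1 6
  have b8 := p1 8
  have b10 := p1 10
  have b12 := p1 12
  norm_num at b2 b4 b6 b8 b10 b12
  have hA1 : |A| ≤ 200 := by
    rw [abs_le]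
    constructor <;> rw [hA] <;> linarith
  have hB1 : |B| ≤ 70 := by
    rw [abs_le]
    constructor <;> rw [hB] <;> linarith
  have e1 : Phi e m - Phi e m' = (A * (m + m') + B * ((m + m') * (m ^ 2 + m' ^ 2))) * (m - m') := by
    unfold Phi
    rw [hA, hB]
    ring
  have s1 : |m + m'| ≤ 5 := by
    calc |m + m'| ≤ |m| + |m'| := abs_add_le _ _
      _ ≤ 5 := by linarith
  have s2 : |m ^ 2 + m' ^ 2| ≤ 25 / 2 := by
    have h1 : m ^ 2 ≤ 25 / 4 := by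
      rw [← sq_abs]
      calc |m| ^ 2 ≤ (5 / 2) ^ 2 := pow_le_pow_left₀ (abs_nonneg _) hm 2
        _ = 25 / 4 := by norm_num
    have h2 : m' ^ 2 ≤ 25 / 4 := by
      rw [← sq_abs]
      calc |m'| ^ 2 ≤ (5 / 2) ^ 2 := pow_le_pow_left₀ (abs_nonneg _) hm' 2
        _ = 25 / 4 := by norm_num
    rw [abs_of_nonneg (by positivity)]
    linarith
  have s3 : |A * (m + m') + B * ((m + m') * (m ^ 2 + m' ^ 2))| ≤ 10000 := by
    calc |A * (m + m') + B * ((m + m') * (m ^ 2 + m' ^ 2))|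
        ≤ |A * (m + m')| + |B * ((m + m') * (m ^ 2 + m' ^ 2))| := abs_add_le _ _
      _ = |A| * |m + m'| + |B| * (|m + m'| * |m ^ 2 + m' ^ 2|) := by
          rw [abs_mul, abs_mul, abs_mul]
      _ ≤ 200 * 5 + 70 * (5 * (25 / 2)) := by gcongr
      _ ≤ 10000 := by norm_num
  rw [e1, abs_mul]
  exact mul_le_mul_of_nonneg_right s3 (abs_nonneg _)

end Kusner.Num.P
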